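import Pool.Agent.H15.IX.TB

/-!
# idx_modules, row BHP: bigraded Hilbert functions, high differences vanish
-/

set_option autoImplicit false

open Finset Pool.Agent.H15.IX

namespace Pool.Agent.H21.IX

universe u

/-! ## differences -/

/-- the difference -/
def dd (f : ℕ → ℤ) (n : ℕ) : ℤ := f n - f (n + 1)

theorem dd_sub (r : ℕ) : ∀ (f g : ℕ → ℤ) (n : ℕ),
    dd^[r] (fun m => f m - g m) n = dd^[r] f n - dd^[r] g n := by
  induction r with
  | zero => intro f g n; rfl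
  | succ r ih =>
    intro f g n
    have e : dd (fun m => f m - g m) = fun m => dd f m - dd g m := by
      funext m
      unfold dd
      ring
    rw [Function.iterate_succ_apply, Function.iterate_succ_apply, Function.iterate_succ_apply,
      e, ih]

theorem dd_shift (r : ℕ) : ∀ (f : ℕ → ℤ) (n : ℕ),
    dd^[r] (fun m => f (m + 1)) n = dd^[r] f (n + 1) := by
  induction r with
  | zero => intro f n; rfl
  | succ r ih =>
    intro f n
    rw [Function.iterate_succ_apply, Function.iterate_succ_apply]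
    have h : dd (fun m => f (m + 1)) = fun m => dd f (m + 1) := rfl
    rw [h, ih]

theorem dd_sum (r : ℕ) : ∀ (f : ℕ → ℤ) (n : ℕ),
    ∑ i ∈ range (r + 1), (-1 : ℤ) ^ i * (r.choose i : ℤ) * f (n + i) = dd^[r] f n := by
  induction r with
  | zero => intro f n; simp
  | succ r ih =>
    intro f n
    rw [Function.iterate_succ_apply, ← ih (dd f) n]
    have h1 : ∑ i ∈ range (r + 1), (-1 : ℤ) ^ i * (r.choose i : ℤ) * dd f (n + i) =
        ∑ i ∈ range (r + 1), (-1 : ℤ) ^ i * (r.choose i : ℤ) * f (n + i) -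
        ∑ i ∈ range (r + 1), (-1 : ℤ) ^ i * (r.choose i : ℤ) * f (n + i + 1) := by
      rw [← Finset.sum_sub_distrib]
      refine Finset.sum_congr rfl fun i _ => ?_
      unfold dd
      ring
    rw [h1]
    have h2 : ∑ i ∈ range (r + 1), (-1 : ℤ) ^ i * (r.choose i : ℤ) * f (n + i) =
        ∑ i ∈ range (r + 1 + 1), (-1 : ℤ) ^ i * (r.choose i : ℤ) * f (n + i) := by
      rw [Finset.sum_range_succ _ (r + 1), Nat.choose_succ_self]
      simp
    have hL := Finset.sum_range_succ'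
      (fun i => (-1 : ℤ) ^ i * ((r + 1).choose i : ℤ) * f (n + i)) (r + 1)
    have hR := Finset.sum_range_succ'
      (fun i => (-1 : ℤ) ^ i * (r.choose i : ℤ) * f (n + i)) (r + 1)
    rw [h2, hR]
    refine hL.trans ?_
    have h3 : ∀ i, (-1 : ℤ) ^ (i + 1) * ((r + 1).choose (i + 1) : ℤ) * f (n + (i + 1)) =
        (-1 : ℤ) ^ (i + 1) * (r.choose (i + 1) : ℤ) * f (n + (i + 1)) -
        (-1 : ℤ) ^ i * (r.choose i : ℤ) * f (n + i + 1) := by
      intro i
      rw [Nat.choose_succ_succ, ← add_assoc]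
      push_cast
      ring
    rw [Finset.sum_congr rfl fun i _ => h3 i, Finset.sum_sub_distrib]
    simp only [Nat.choose_zero_right]
    ring

/-- the `r`-th differences vanish from `n₀` on -/
def Vn (n₀ r : ℕ) (f : ℕ → ℤ) : Prop := ∀ n, n₀ ≤ n → dd^[r] f n = 0

theorem Vn_succ {n₀ r : ℕ} {f : ℕ → ℤ} (h : Vn n₀ r f) : Vn n₀ (r + 1) f := by
  intro n hn
  rw [Function.iterate_succ_apply']
  change dd^[r] f n - dd^[r] f (n + 1) = 0
  rw [h n hn, h (n + 1) (by omega), sub_zero]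

theorem Vn_mono {n₀ n₁ r s : ℕ} {f : ℕ → ℤ} (h : Vn n₀ r f) (hn : n₀ ≤ n₁) (hr : r ≤ s) :
    Vn n₁ s f := by
  induction s, hr using Nat.le_induction with
  | base => exact fun n h1 => h n (hn.trans h1)
  | succ s _ ih => exact Vn_succ ih

theorem Dif_iff {n₀ r : ℕ} {Q : ℕ → ℕ → ℤ} : Dif n₀ r Q ↔
    (∀ k, n₀ ≤ k → Vn n₀ r (fun j => Q j k)) ∧ (∀ j, n₀ ≤ j → Vn n₀ r (fun k => Q j k)) := by
  unfold Dif Vn
  constructor
  · intro h
    refine ⟨fun k hk j hj => ?_, fun j hj k hk => ?_⟩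
    · rw [← dd_sum]; exact (h j k hj hk).1
    · rw [← dd_sum]; exact (h j k hj hk).2
  · rintro ⟨h1, h2⟩ j k hj hk
    refine ⟨?_, ?_⟩
    · rw [dd_sum r (fun j => Q j k) j]; exact h1 k hk j hj
    · rw [dd_sum r (fun k => Q j k) k]; exact h2 j hj k hk

theorem Dif_swap {n₀ r : ℕ} {Q : ℕ → ℕ → ℤ} (h : Dif n₀ r Q) : Dif n₀ r (fun j k => Q k j) :=
  fun j k hj hk => ⟨(h k j hk hj).2, (h k j hk hj).1⟩

/-- combination of the two directions -/
theorem Dif_of (Q : ℕ → ℕ → ℤ) (F G F' G' : ℕ → ℕ → ℤ)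
    (h1 : ∀ j k, Q (j + 1) k - Q j k = F (j + 1) k - G j k)
    (h2 : ∀ j k, Q j (k + 1) - Q j k = F' j (k + 1) - G' j k)
    (hF : ∃ n r, Dif n r F) (hG : ∃ n r, Dif n r G) (hF' : ∃ n r, Dif n r F')
    (hG' : ∃ n r, Dif n r G') : ∃ n r, Dif n r Q := by
  obtain ⟨n1, r1, hF⟩ := hF
  obtain ⟨n2, r2, hG⟩ := hG
  obtain ⟨n3, r3, hF'⟩ := hF'
  obtain ⟨n4, r4, hG'⟩ := hG'
  rw [Dif_iff] at hF hG hF' hG'
  refine ⟨max (max n1 n2) (max n3 n4), max (max r1 r2) (max r3 r4) + 1, ?_⟩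
  set N := max (max n1 n2) (max n3 n4) with hN
  set R := max (max r1 r2) (max r3 r4) with hR
  rw [Dif_iff]
  constructor
  · intro k hk n hn
    rw [Function.iterate_succ_apply]
    have e : dd (fun j => Q j k) = fun j => G j k - F (j + 1) k := by
      funext j
      have := h1 j k
      unfold dd
      linarith
    rw [e, dd_sub, dd_shift R (fun j => F j k)]
    have a1 := Vn_mono (n₁ := N) (s := R) (hG.1 k (by omega)) (by omega) (by omega) n hn
    have a2 := Vn_mono (n₁ := N) (s := R) (hF.1 k (by omega)) (by omega) (by omega) (n + 1)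
      (by omega)
    rw [a1, a2, sub_zero]
  · intro j hj n hn
    rw [Function.iterate_succ_apply]
    have e : dd (fun k => Q j k) = fun k => G' j k - F' j (k + 1) := by
      funext k
      have := h2 j k
      unfold dd
      linarith
    rw [e, dd_sub, dd_shift R (fun k => F' j k)]
    have a1 := Vn_mono (n₁ := N) (s := R) (hG'.2 j (by omega)) (by omega) (by omega) n hn
    have a2 := Vn_mono (n₁ := N) (s := R) (hF'.2 j (by omega)) (by omega) (by omega) (n + 1)
      (by omega)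
    rw [a1, a2, sub_zero]

/-! ## lengths -/

section len

variable {A E : Type u} [CommRing A] [CommRing E] [Algebra A E]

theorem len_chain (N K M : Submodule A E) (h1 : N ≤ K) (h2 : K ≤ M) :
    Module.length A (↥M ⧸ N.submoduleOf M) = Module.length A (↥K ⧸ N.submoduleOf K) +
      Module.length A (↥M ⧸ K.submoduleOf M) := by
  let i : (↥K ⧸ N.submoduleOf K) →ₗ[A] (↥M ⧸ N.submoduleOf M) :=
    Submodule.mapQ _ _ (Submodule.inclusion h2) (fun x hx => hx)
  let p : (↥M ⧸ N.submoduleOf M) →ₗ[A] (↥M ⧸ K.submoduleOf M) :=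
    Submodule.mapQ _ _ LinearMap.id (fun x hx => h1 hx)
  refine Module.length_eq_add_of_exact i p ?_ ?_ ?_
  · rw [← LinearMap.ker_eq_bot, LinearMap.ker_eq_bot']
    intro m hm
    obtain ⟨x, rfl⟩ := Submodule.Quotient.mk_surjective _ m
    rw [Submodule.Quotient.mk_eq_zero]
    have h3 : i (Submodule.Quotient.mk x) = Submodule.Quotient.mk (Submodule.inclusion h2 x) := rfl
    rw [h3, Submodule.Quotient.mk_eq_zero] at hm
    exact hm
  · intro y
    obtain ⟨x, rfl⟩ := Submodule.Quotient.mk_surjective _ y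
    exact ⟨Submodule.Quotient.mk x, rfl⟩
  · intro y
    obtain ⟨x, rfl⟩ := Submodule.Quotient.mk_surjective _ y
    have h3 : p (Submodule.Quotient.mk x) = Submodule.Quotient.mk x := rfl
    rw [h3, Submodule.Quotient.mk_eq_zero]
    constructor
    · intro hx
      exact ⟨Submodule.Quotient.mk ⟨x, hx⟩, rfl⟩
    · rintro ⟨z, hz⟩
      obtain ⟨w, rfl⟩ := Submodule.Quotient.mk_surjective _ z
      have h4 : i (Submodule.Quotient.mk w) = Submodule.Quotient.mk (Submodule.inclusion h2 w) :=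
        rfl
      rw [h4, Submodule.Quotient.eq] at hz
      have h5 : ((Submodule.inclusion h2 w - x : M) : E) ∈ N := hz
      have h6 : (w : E) - x ∈ K := h1 h5
      have h7 : (x : E) = w - (w - x) := by ring
      change (x : E) ∈ K
      rw [h7]
      exact K.sub_mem w.2 h6

theorem lg_chain (N K M : Submodule A E) (h1 : N ≤ K) (h2 : K ≤ M)
    (h : Module.length A (↥M ⧸ N.submoduleOf M) ≠ ⊤) :
    lg M N = lg K N + lg M K ∧ Module.length A (↥K ⧸ N.submoduleOf K) ≠ ⊤ ∧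
      Module.length A (↥M ⧸ K.submoduleOf M) ≠ ⊤ := by
  have e := len_chain N K M h1 h2
  rw [e] at h
  have h3 : Module.length A (↥K ⧸ N.submoduleOf K) ≠ ⊤ := fun h0 => h (by rw [h0, top_add])
  have h4 : Module.length A (↥M ⧸ K.submoduleOf M) ≠ ⊤ := fun h0 => h (by rw [h0, add_top])
  refine ⟨?_, h3, h4⟩
  unfold lg
  rw [e, ENat.toNat_add h3 h4]
  push_cast
  rfl

/-- the isomorphism -/
theorem len_iso (f : E →ₗ[A] E) (M₁ N₂ : Submodule A E) :
    Module.length A (↥M₁ ⧸ (M₁ ⊓ N₂.comap f).submoduleOf M₁) =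
      Module.length A (↥(N₂ ⊔ M₁.map f) ⧸ N₂.submoduleOf (N₂ ⊔ M₁.map f)) := by
  let g : ↥M₁ →ₗ[A] ↥(N₂ ⊔ M₁.map f) :=
    { toFun := fun x => ⟨f x, Submodule.mem_sup_right (Submodule.mem_map_of_mem x.2)⟩
      map_add' := fun x y => Subtype.ext (by simp)
      map_smul' := fun c x => Subtype.ext (by simp) }
  let q : ↥M₁ →ₗ[A] (↥(N₂ ⊔ M₁.map f) ⧸ N₂.submoduleOf (N₂ ⊔ M₁.map f)) :=
    (Submodule.mkQ _).comp g
  have hq : Function.Surjective q := by
    intro y
    obtain ⟨⟨x, hx⟩, rfl⟩ := Submodule.Quotient.mk_surjective _ y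
    obtain ⟨a, ha, b, hb, hab⟩ := Submodule.mem_sup.1 hx
    obtain ⟨c, hc, rfl⟩ := hb
    refine ⟨⟨c, hc⟩, ?_⟩
    change Submodule.Quotient.mk (g ⟨c, hc⟩) = _
    rw [Submodule.Quotient.eq]
    change f c - x ∈ N₂
    have : f c - x = -a := by rw [← hab]; ring
    rw [this]
    exact N₂.neg_mem ha
  have hk : LinearMap.ker q = (M₁ ⊓ N₂.comap f).submoduleOf M₁ := by
    ext x
    rw [LinearMap.mem_ker]
    change Submodule.Quotient.mk (g x) = 0 ↔ (x : E) ∈ M₁ ⊓ N₂.comap f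
    rw [Submodule.Quotient.mk_eq_zero]
    change f x ∈ N₂ ↔ _
    rw [Submodule.mem_inf, Submodule.mem_comap]
    exact ⟨fun h => ⟨x.2, h⟩, fun h => h.2⟩
  rw [← hk]
  exact (q.quotKerEquivOfSurjective hq).length_eq

/-- the step -/
theorem lg_step (f : E →ₗ[A] E) (M₁ M₂ N₁ N₂ : Submodule A E) (h1 : N₁ ≤ M₁) (h2 : N₂ ≤ M₂)
    (hf : M₁.map f ≤ M₂) (hf' : N₁.map f ≤ N₂)
    (hl1 : IsFiniteLength A (↥M₁ ⧸ N₁.submoduleOf M₁))
    (hl2 : IsFiniteLength A (↥M₂ ⧸ N₂.submoduleOf M₂)) :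
    lg M₂ N₂ - lg M₁ N₁ = lg M₂ (N₂ ⊔ M₁.map f) - lg (M₁ ⊓ N₂.comap f) N₁ ∧
      IsFiniteLength A (↥M₂ ⧸ (N₂ ⊔ M₁.map f).submoduleOf M₂) ∧
      IsFiniteLength A (↥(M₁ ⊓ N₂.comap f) ⧸ N₁.submoduleOf (M₁ ⊓ N₂.comap f)) := by
  rw [← Module.length_ne_top_iff] at hl1 hl2
  obtain ⟨e1, f1, f2⟩ := lg_chain N₁ (M₁ ⊓ N₂.comap f) M₁
    (le_inf h1 (Submodule.map_le_iff_le_comap.1 hf')) inf_le_left hl1
  obtain ⟨e2, f3, f4⟩ := lg_chain N₂ (N₂ ⊔ M₁.map f) M₂ le_sup_left (sup_le h2 hf) hl2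
  refine ⟨?_, Module.length_ne_top_iff.1 f4, Module.length_ne_top_iff.1 f1⟩
  have e3 : lg M₁ (M₁ ⊓ N₂.comap f) = lg (N₂ ⊔ M₁.map f) N₂ := by
    unfold lg
    rw [len_iso f M₁ N₂]
  rw [e1, e2, e3]
  ring

theorem lg_zero (M N : Submodule A E) (h : M ≤ N) : lg M N = 0 := by
  unfold lg
  have h1 : N.submoduleOf M = ⊤ := Submodule.submoduleOf_eq_top.2 h
  have h2 : Subsingleton (↥M ⧸ N.submoduleOf M) := by
    rw [h1]
    exact Submodule.Quotient.subsingleton_iff.2 rfl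
  rw [Module.length_eq_zero]
  rfl

end len

/-! ## the induction -/

section ind

variable {A E : Type u} [CommRing A] [CommRing E] [Algebra A E]

/-- the hypotheses of the induction -/
structure Hy (ys zs ys0 zs0 : Finset E) (P P' : ℕ → ℕ → Submodule A E) : Prop where
  fg : ∀ j k, (P j k).FG
  le : ∀ j k, P' j k ≤ P j k
  sb : Sb (Submodule.span A (ys : Set E)) (Submodule.span A (zs : Set E)) P
  sb' : Sb (Submodule.span A (ys : Set E)) (Submodule.span A (zs : Set E)) P'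
  gn : Gn (Submodule.span A (ys : Set E)) (Submodule.span A (zs : Set E)) P
  fl : ∀ j k, IsFiniteLength A (↥(P j k) ⧸ (P' j k).submoduleOf (P j k))
  iy : ∀ y ∈ ys, y ∉ ys0 → ∀ j k, ∀ x ∈ P j k, y * x ∈ P' (j + 1) k
  iz : ∀ z ∈ zs, z ∉ zs0 → ∀ j k, ∀ x ∈ P j k, z * x ∈ P' j (k + 1)

theorem Hy.swap {ys zs ys0 zs0 : Finset E} {P P' : ℕ → ℕ → Submodule A E}
    (h : Hy ys zs ys0 zs0 P P') :
    Hy zs ys zs0 ys0 (fun j k => P k j) (fun j k => P' k j) where
  fg := fun j k => h.fg k j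
  le := fun j k => h.le k j
  sb := fun j k => ⟨(h.sb k j).2, (h.sb k j).1⟩
  sb' := fun j k => ⟨(h.sb' k j).2, (h.sb' k j).1⟩
  gn := by
    obtain ⟨c, hc⟩ := h.gn
    exact ⟨c, fun j k => ⟨(hc k j).2, (hc k j).1⟩⟩
  fl := fun j k => h.fl k j
  iy := fun z hz hz0 j k => h.iz z hz hz0 k j
  iz := fun y hy hy0 j k => h.iy y hy hy0 k j

/-- the case without variables of the first kind -/
theorem Hy.base {ys zs zs0 : Finset E} {P P' : ℕ → ℕ → Submodule A E}
    (h : Hy ys zs ∅ zs0 P P') : ∃ n₀ r : ℕ, Dif n₀ r (fun j k => lg (P j k) (P' j k)) := by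
  obtain ⟨c, hc⟩ := h.gn
  have h1 : ∀ j k, c + 1 ≤ j → lg (P j k) (P' j k) = 0 := by
    intro j k hj
    obtain ⟨i, rfl⟩ : ∃ i, j = i + 1 := ⟨j - 1, by omega⟩
    apply lg_zero
    refine ((hc i k).1 (by omega)).trans ?_
    rw [Submodule.mul_le]
    intro y hy x hx
    induction hy using Submodule.span_induction with
    | mem y hy => exact h.iy y hy (Finset.notMem_empty y) i k x hx
    | zero => rw [zero_mul]; exact Submodule.zero_mem _
    | add a b _ _ ha hb => rw [add_mul]; exact Submodule.add_mem _ ha hb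
    | smul a b _ hb => rw [smul_mul_assoc]; exact Submodule.smul_mem _ _ hb
  refine ⟨c + 1, 0, ?_⟩
  intro j k hj hk
  constructor
  · simp [h1 j k hj]
  · simp [h1 j k hj]

/-- the cokernel -/
def Ck (y : E) (P P' : ℕ → ℕ → Submodule A E) : ℕ → ℕ → Submodule A E
  | 0, k => P' 0 k
  | (j + 1), k => P' (j + 1) k ⊔ (P j k).map (LinearMap.mulLeft A y)

/-- the kernel -/
def Kk (y : E) (P P' : ℕ → ℕ → Submodule A E) (j k : ℕ) : Submodule A E :=
  P j k ⊓ (P' (j + 1) k).comap (LinearMap.mulLeft A y)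

theorem mem_Kk {y : E} {P P' : ℕ → ℕ → Submodule A E} {j k : ℕ} {x : E} :
    x ∈ Kk y P P' j k ↔ x ∈ P j k ∧ y * x ∈ P' (j + 1) k := Iff.rfl

theorem le_Ck (y : E) (P P' : ℕ → ℕ → Submodule A E) (j k : ℕ) : P' j k ≤ Ck y P P' j k := by
  cases j with
  | zero => exact le_rfl
  | succ j => exact le_sup_left

theorem mul_Ck (y : E) (P P' : ℕ → ℕ → Submodule A E) (j k : ℕ) (x : E) (hx : x ∈ P j k) :
    y * x ∈ Ck y P P' (j + 1) k :=
  Submodule.mem_sup_right (Submodule.mem_map_of_mem (f := LinearMap.mulLeft A y) hx)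

variable {ys zs ys0 zs0 : Finset E} {P P' : ℕ → ℕ → Submodule A E}

theorem map_le (h : Hy ys zs ys0 zs0 P P') {y : E} (hy : y ∈ ys) (j k : ℕ) :
    (P j k).map (LinearMap.mulLeft A y) ≤ P (j + 1) k := by
  rintro _ ⟨x, hx, rfl⟩
  exact (h.sb j k).1 (Submodule.mul_mem_mul (Submodule.subset_span hy) hx)

theorem map_le' (h : Hy ys zs ys0 zs0 P P') {y : E} (hy : y ∈ ys) (j k : ℕ) :
    (P' j k).map (LinearMap.mulLeft A y) ≤ P' (j + 1) k := by
  rintro _ ⟨x, hx, rfl⟩
  exact (h.sb' j k).1 (Submodule.mul_mem_mul (Submodule.subset_span hy) hx)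

theorem step_eq (h : Hy ys zs ys0 zs0 P P') {y : E} (hy : y ∈ ys) (j k : ℕ) :
    lg (P (j + 1) k) (P' (j + 1) k) - lg (P j k) (P' j k) =
      lg (P (j + 1) k) (Ck y P P' (j + 1) k) - lg (Kk y P P' j k) (P' j k) ∧
      IsFiniteLength A (↥(P (j + 1) k) ⧸ (Ck y P P' (j + 1) k).submoduleOf (P (j + 1) k)) ∧
      IsFiniteLength A (↥(Kk y P P' j k) ⧸ (P' j k).submoduleOf (Kk y P P' j k)) :=
  lg_step (LinearMap.mulLeft A y) (P j k) (P (j + 1) k) (P' j k) (P' (j + 1) k) (h.le j k)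
    (h.le (j + 1) k) (map_le h hy j k) (map_le' h hy j k) (h.fl j k) (h.fl (j + 1) k)

theorem Hy.coker [DecidableEq E] (h : Hy ys zs ys0 zs0 P P') {y : E} (hy : y ∈ ys) :
    Hy ys zs (ys0.erase y) zs0 P (Ck y P P') where
  fg := h.fg
  le := by
    intro j k
    cases j with
    | zero => exact h.le 0 k
    | succ j => exact sup_le (h.le (j + 1) k) (map_le h hy j k)
  sb := h.sb
  sb' := by
    intro j k
    cases j with
    | zero =>
      exact ⟨((h.sb' 0 k).1).trans (le_Ck y P P' 1 k), (h.sb' 0 k).2⟩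
    | succ j =>
      constructor
      · rw [Submodule.mul_le]
        intro m hm x hx
        obtain ⟨a, ha, b, hb, rfl⟩ := Submodule.mem_sup.1 hx
        obtain ⟨c, hc, rfl⟩ := hb
        rw [mul_add]
        refine Submodule.add_mem _ (le_Ck y P P' _ _ ((h.sb' _ _).1 (Submodule.mul_mem_mul hm ha)))
          ?_
        have e : m * (LinearMap.mulLeft A y) c = y * (m * c) := by
          rw [LinearMap.mulLeft_apply]; ring
        rw [e]
        exact mul_Ck y P P' (j + 1) k _ ((h.sb _ _).1 (Submodule.mul_mem_mul hm hc))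
      · rw [Submodule.mul_le]
        intro m hm x hx
        obtain ⟨a, ha, b, hb, rfl⟩ := Submodule.mem_sup.1 hx
        obtain ⟨c, hc, rfl⟩ := hb
        rw [mul_add]
        refine Submodule.add_mem _ (le_Ck y P P' _ _ ((h.sb' _ _).2 (Submodule.mul_mem_mul hm ha)))
          ?_
        have e : m * (LinearMap.mulLeft A y) c = y * (m * c) := by
          rw [LinearMap.mulLeft_apply]; ring
        rw [e]
        exact mul_Ck y P P' j (k + 1) _ ((h.sb _ _).2 (Submodule.mul_mem_mul hm hc))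
  gn := h.gn
  fl := by
    intro j k
    cases j with
    | zero => exact h.fl 0 k
    | succ j => exact (step_eq h hy j k).2.1
  iy := by
    intro y' hy' hy0 j k x hx
    by_cases e : y' = y
    · rw [e]; exact mul_Ck y P P' j k x hx
    · exact le_Ck y P P' _ _ (h.iy y' hy' (fun h1 => hy0 (Finset.mem_erase.2 ⟨e, h1⟩)) j k x hx)
  iz := fun z hz hz0 j k x hx => le_Ck y P P' _ _ (h.iz z hz hz0 j k x hx)

theorem Hy.ker [IsNoetherianRing A] [DecidableEq E] (hNOE : T_NOE.{u})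
    (h : Hy ys zs ys0 zs0 P P') {y : E} (hy : y ∈ ys) :
    Hy ys zs (ys0.erase y) zs0 (Kk y P P') P' := by
  have hle : ∀ j k, Kk y P P' j k ≤ P j k := fun j k => inf_le_left
  have hsb : Sb (Submodule.span A (ys : Set E)) (Submodule.span A (zs : Set E))
      (Kk y P P') := by
    intro j k
    constructor
    · rw [Submodule.mul_le]
      intro m hm x hx
      rw [mem_Kk] at hx ⊢
      refine ⟨(h.sb _ _).1 (Submodule.mul_mem_mul hm hx.1), ?_⟩
      have e : y * (m * x) = m * (y * x) := by ring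
      rw [e]
      exact (h.sb' _ _).1 (Submodule.mul_mem_mul hm hx.2)
    · rw [Submodule.mul_le]
      intro m hm x hx
      rw [mem_Kk] at hx ⊢
      refine ⟨(h.sb _ _).2 (Submodule.mul_mem_mul hm hx.1), ?_⟩
      have e : y * (m * x) = m * (y * x) := by ring
      rw [e]
      exact (h.sb' _ _).2 (Submodule.mul_mem_mul hm hx.2)
  exact
  { fg := fun j k => (h.fg j k).of_le (hle j k)
    le := fun j k x hx => mem_Kk.2 ⟨h.le j k hx,
      (h.sb' j k).1 (Submodule.mul_mem_mul (Submodule.subset_span hy) hx)⟩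
    sb := hsb
    sb' := h.sb'
    gn := hNOE A E _ _ P (Kk y P P') (Submodule.fg_span (Finset.finite_toSet ys))
      (Submodule.fg_span (Finset.finite_toSet zs)) h.fg hle h.sb hsb h.gn
    fl := fun j k => (step_eq h hy j k).2.2
    iy := by
      intro y' hy' hy0 j k x hx
      rw [mem_Kk] at hx
      by_cases e : y' = y
      · rw [e]; exact hx.2
      · exact h.iy y' hy' (fun h1 => hy0 (Finset.mem_erase.2 ⟨e, h1⟩)) j k x hx.1
    iz := fun z hz hz0 j k x hx => h.iz z hz hz0 j k x (mem_Kk.1 hx).1 }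

theorem main [IsNoetherianRing A] (hNOE : T_NOE.{u}) : ∀ (n : ℕ) (ys zs ys0 zs0 : Finset E)
    (P P' : ℕ → ℕ → Submodule A E), ys0 ⊆ ys → zs0 ⊆ zs → ys0.card + zs0.card = n →
    Hy ys zs ys0 zs0 P P' → ∃ n₀ r : ℕ, Dif n₀ r (fun j k => lg (P j k) (P' j k)) := by
  classical
  intro n
  induction n with
  | zero =>
    intro ys zs ys0 zs0 P P' _ _ hn h
    have : ys0 = ∅ := Finset.card_eq_zero.1 (by omega)
    subst this
    exact h.base
  | succ n ih =>
    intro ys zs ys0 zs0 P P' hys hzs hn h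
    rcases ys0.eq_empty_or_nonempty with rfl | ⟨y, hy⟩
    · exact h.base
    rcases zs0.eq_empty_or_nonempty with rfl | ⟨z, hz⟩
    · obtain ⟨n₀, r, hd⟩ := h.swap.base
      exact ⟨n₀, r, Dif_swap hd⟩
    have hyy := hys hy
    have hzz := hzs hz
    have c1 := Finset.card_erase_of_mem hy
    have c2 := Finset.card_erase_of_mem hz
    have c3 : 1 ≤ ys0.card := Finset.card_pos.2 ⟨y, hy⟩
    have c4 : 1 ≤ zs0.card := Finset.card_pos.2 ⟨z, hz⟩
    have a1 := ih ys zs (ys0.erase y) zs0 P (Ck y P P')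
      ((Finset.erase_subset _ _).trans hys) hzs (by omega) (h.coker hyy)
    have a2 := ih ys zs (ys0.erase y) zs0 (Kk y P P') P'
      ((Finset.erase_subset _ _).trans hys) hzs (by omega) (h.ker hNOE hyy)
    have a3 := ih zs ys (zs0.erase z) ys0 _ _
      ((Finset.erase_subset _ _).trans hzs) hys (by omega) (h.swap.coker hzz)
    have a4 := ih zs ys (zs0.erase z) ys0 _ _
      ((Finset.erase_subset _ _).trans hzs) hys (by omega) (h.swap.ker hNOE hzz)
    obtain ⟨n3, r3, a3⟩ := a3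
    obtain ⟨n4, r4, a4⟩ := a4
    exact Dif_of _ _ _ _ _ (fun j k => (step_eq h hyy j k).1)
      (fun j k => (step_eq h.swap hzz k j).1) a1 a2 ⟨n3, r3, Dif_swap a3⟩ ⟨n4, r4, Dif_swap a4⟩

end ind

theorem pf_BHP (hNOE : T_NOE.{u}) : T_BHP.{u} := by
  intro A E _ _ _ _ Y Z P P' hY hZ hP hle hsb hsb' hgn hfl
  obtain ⟨ys, rfl⟩ := hY
  obtain ⟨zs, rfl⟩ := hZ
  exact main hNOE _ ys zs ys zs P P' (Finset.Subset.refl _) (Finset.Subset.refl _) rfl
    { fg := hP
      le := hle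
      sb := hsb
      sb' := hsb'
      gn := hgn
      fl := hfl
      iy := fun y hy hy0 => absurd hy hy0
      iz := fun z hz hz0 => absurd hz hz0 }

end Pool.Agent.H21.IX
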