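import Pool.Agent.H15.IX.TB

/-!
# idx_modules, row CPT: compactness of the space of valuation rings
-/

set_option autoImplicit false

open Finset Pool.Agent.H15.IX

namespace Pool.Agent.H21.IX

universe u

theorem pf_CPT : T_CPT.{u} := by
  classical
  intro A E _ _ _ t p h
  by_contra hcon
  push Not at hcon
  have hG : ∀ G : Finset E, ∃ O : ValuationSubring E, Ov A O ∧ t⁻¹ ∉ O ∧
      ∀ f ∈ G, f ≠ 0 → t * f ^ p ∈ O → (t * f ^ p)⁻¹ ∉ O := by
    intro G
    obtain ⟨O, h1, h2, h3⟩ := hcon (G.filter (fun f => f ≠ 0))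
      (fun f hf => (Finset.mem_filter.1 hf).2)
    exact ⟨O, h1, h2, fun f hf hf0 => h3 f (Finset.mem_filter.2 ⟨hf, hf0⟩)⟩
  choose O hO1 hO2 hO3 using hG
  let W : Ultrafilter (Finset E) := Ultrafilter.of Filter.atTop
  have hW : (W : Filter (Finset E)) ≤ Filter.atTop := Ultrafilter.of_le _
  let S : ValuationSubring E :=
    { carrier := {x | ∀ᶠ G in (W : Filter (Finset E)), x ∈ O G}
      mul_mem' := fun {x y} hx hy => by
        filter_upwards [hx, hy] with G h1 h2
        exact (O G).mul_mem _ _ h1 h2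
      one_mem' := Filter.Eventually.of_forall fun G => (O G).one_mem
      add_mem' := fun {x y} hx hy => by
        filter_upwards [hx, hy] with G h1 h2
        exact (O G).add_mem _ _ h1 h2
      zero_mem' := Filter.Eventually.of_forall fun G => (O G).zero_mem
      neg_mem' := fun {x} hx => by
        filter_upwards [hx] with G h1
        exact (O G).neg_mem _ h1
      mem_or_inv_mem' := fun x => by
        have h1 : ∀ᶠ G in (W : Filter (Finset E)), x ∈ O G ∨ x⁻¹ ∈ O G :=
          Filter.Eventually.of_forall fun G => (O G).mem_or_inv_mem x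
        exact Ultrafilter.eventually_or.1 h1 }
  have hmem : ∀ x : E, x ∈ S ↔ ∀ᶠ G in (W : Filter (Finset E)), x ∈ O G := fun x => Iff.rfl
  obtain ⟨f, hf0, hf1, hf2⟩ := h S
    (fun a => (hmem _).2 (Filter.Eventually.of_forall fun G => hO1 G a))
    (fun hin => by
      obtain ⟨G, hG⟩ := ((hmem _).1 hin).exists
      exact hO2 G hG)
  have h3 : ∀ᶠ G in (W : Filter (Finset E)), f ∈ G := by
    apply hW
    filter_upwards [Filter.eventually_ge_atTop ({f} : Finset E)] with G hG
    exact hG (Finset.mem_singleton_self f)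
  obtain ⟨G, hG1, hG2, hG3⟩ := (((hmem _).1 hf1).and (((hmem _).1 hf2).and h3)).exists
  exact hO3 G f hG3 hf0 hG1 hG2

end Pool.Agent.H21.IX
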